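import Pool.Agent.Q80.AC.Stm

/-! # Project AC (helper80), job SYM: symmetric absolutely continuous probability measures -/

set_option autoImplicit false
set_option linter.unusedSectionVars false

open MeasureTheory Topology Filter
open scoped ENNReal NNReal ComplexConjugate

namespace Q83.AC.SYM

open Pool.Agent.Q80.AC

section

variable {H : Type} [Group H] [TopologicalSpace H] [IsTopologicalGroup H] [LocallyCompactSpace H]
  [SecondCountableTopology H] [T2Space H] [MeasurableSpace H] [BorelSpace H]

/-- symmetrisation -/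
noncomputable def sy (κ : Measure H) : Measure H :=
  (2 : ℝ≥0∞)⁻¹ • κ + (2 : ℝ≥0∞)⁻¹ • κ.map (fun x => x⁻¹)

theorem sy_apply (κ : Measure H) {s : Set H} (hs : MeasurableSet s) :
    sy κ s = 2⁻¹ * κ s + 2⁻¹ * κ ((fun x => x⁻¹) ⁻¹' s) := by
  rw [sy, Measure.add_apply, Measure.smul_apply, Measure.smul_apply, Measure.map_apply measurable_inv hs,
    smul_eq_mul, smul_eq_mul]

theorem sy_prob (κ : Measure H) [IsProbabilityMeasure κ] : IsProbabilityMeasure (sy κ) := by
  refine ⟨?_⟩
  rw [sy_apply κ MeasurableSet.univ, Set.preimage_univ, measure_univ, mul_one, ENNReal.inv_two_add_inv_two]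

theorem map_inv_inv (κ : Measure H) : (κ.map (fun x => x⁻¹)).map (fun x => x⁻¹) = κ := by
  rw [Measure.map_map measurable_inv measurable_inv]
  have : ((fun x : H => x⁻¹) ∘ fun x => x⁻¹) = id := by
    funext x
    simp
  rw [this, Measure.map_id]

theorem sy_symm (κ : Measure H) : (sy κ).map (fun x => x⁻¹) = sy κ := by
  rw [sy, Measure.map_add _ _ measurable_inv, Measure.map_smul, Measure.map_smul, map_inv_inv, add_comm]

theorem sy_ac (m : Measure H) [m.IsHaarMeasure] (κ : Measure H) (h : κ ≪ m) : sy κ ≪ m := by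
  have h1 : κ.map (fun x => x⁻¹) ≪ m :=
    (h.map measurable_inv).trans (quasiMeasurePreserving_inv m).absolutelyContinuous
  intro s hs
  rw [sy, Measure.add_apply, Measure.smul_apply, Measure.smul_apply, h hs, h1 hs]
  simp

end

theorem t_SYM : S_SYM := by
  intro H _ _ _ _ _ _ _ _ m _
  refine ⟨?_, ?_⟩
  · refine ⟨sy m.toFinite, sy_prob _, sy_ac m _ (toFinite_absolutelyContinuous m), ?_, sy_symm _⟩
    refine (absolutelyContinuous_toFinite m).trans ?_
    intro s hs
    rw [sy, Measure.add_apply, add_eq_zero, Measure.smul_apply, smul_eq_mul, mul_eq_zero] at hs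
    rcases hs.1 with h | h
    · exact absurd h (by simp)
    · exact h
  · intro V hV
    obtain ⟨W, hWo, h1W, hWV, hWc⟩ := exists_open_between_and_isCompact_closure
      (K := ({1} : Set H)) (U := interior V) isCompact_singleton isOpen_interior
      (by simpa using mem_interior_iff_mem_nhds.2 hV)
    set S : Set H := W ∩ (fun x => x⁻¹) ⁻¹' W with hS
    have hSo : IsOpen S := hWo.inter (hWo.preimage continuous_inv)
    have h1S : (1 : H) ∈ S := by
      have h1 : (1 : H) ∈ W := h1W rfl
      exact ⟨h1, by simpa using h1⟩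
    have hSV : S ⊆ V := fun x hx => interior_subset (hWV (subset_closure hx.1))
    have hSinv : (fun x : H => x⁻¹) ⁻¹' S = S := by
      ext x
      simp only [hS, Set.mem_preimage, Set.mem_inter_iff, inv_inv]
      exact and_comm
    have hpos : m S ≠ 0 := (hSo.measure_pos m ⟨1, h1S⟩).ne'
    have hfin : m S ≠ ∞ :=
      ((measure_mono (fun x hx => subset_closure hx.1)).trans_lt hWc.measure_lt_top).ne
    have hκ : IsProbabilityMeasure ((m S)⁻¹ • m.restrict S) := by
      refine ⟨?_⟩
      rw [Measure.smul_apply, Measure.restrict_apply MeasurableSet.univ, Set.univ_inter, smul_eq_mul]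
      exact ENNReal.inv_mul_cancel hpos hfin
    have hκm : (m S)⁻¹ • m.restrict S ≪ m :=
      (Measure.smul_absolutelyContinuous).trans Measure.restrict_le_self.absolutelyContinuous
    have hκS : ((m S)⁻¹ • m.restrict S) Sᶜ = 0 := by
      rw [Measure.smul_apply, Measure.restrict_apply hSo.measurableSet.compl, Set.compl_inter_self,
        measure_empty, smul_zero]
    refine ⟨sy ((m S)⁻¹ • m.restrict S), sy_prob _, sy_ac m _ hκm, ?_, sy_symm _⟩
    refine measure_mono_null (Set.compl_subset_compl.2 hSV) ?_
    rw [sy_apply _ hSo.measurableSet.compl, Set.preimage_compl, hSinv, hκS]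
    simp

end Q83.AC.SYM
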